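import Pool.Agent.Helper43.RG.Num

/-!
# Module NBA of project RG (MP_cb927e_an): numbers, class 0
-/

set_option autoImplicit false

open Set Filter Topology

namespace Pool.Agent.Helper43.RG

open Pool.Agent.Helper20.RG

theorem hNBA : StNBA := by
  intro Cf A σ q hCf hA hσ hσq hq
  have hσ1 : 0 < σ + 1 := by linarith
  obtain ⟨C, hC, hab⟩ := absorb 20 (2 * (5 * 16384 * 16 * 1024 * Cf * (3 + A)))
    (1 / (2 * (σ + 1))) (by positivity) (by positivity)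
  refine ⟨1, C, 1 / (2 * (σ + 1)), hC, by positivity, fun u Λ η m₁ hu hnum => ?_⟩
  obtain ⟨hΛ, hΛ2, hη, hη1, hm0, hm, hD5, hinv, hNL, hNL1, hmlo, hmhi⟩ :=
    num_basic u σ q Λ η m₁ hu hσq hnum
  have hu1 : (1 : ℝ) ≤ u := by exact_mod_cast hu
  have hu0 : (0 : ℝ) < u := by linarith
  have hN := N_one u
  have hN0 := N_pos u
  obtain ⟨hMs0, hMs⟩ := Ms_le u hu
  have hW1 : (1 : ℝ) ≤ (2 : ℝ) ^ 0 * (1024 * (u : ℝ) ^ 2) := by nlinarith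
  obtain ⟨T, hT1, hmu0, hmu⟩ := muT u A σ _ hW1 hA (by linarith)
  refine ⟨T, hT1, ?_⟩
  set N : ℝ := (2 : ℝ) ^ u with hNd
  set W : ℝ := (2 : ℝ) ^ 0 * (1024 * (u : ℝ) ^ 2) with hWd
  set s : ℝ := σ / (σ + 1) with hs
  have hs0 : 0 < s := by positivity
  have hs1 : s ≤ 1 := by rw [hs, div_le_one hσ1]; linarith
  have hWe : W = 1024 * (u : ℝ) ^ 2 := by rw [hWd]; ring
  have hW0 : 0 < W := lt_of_lt_of_le one_pos hW1
  have hNs : 1 ≤ N ^ s := Real.one_le_rpow hN hs0.le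
  have hmu2 : mu u A σ W T ≤ (3 + A) * W * N ^ s := by
    have h1 : (W * N) ^ s ≤ W * N ^ s := by
      rw [Real.mul_rpow hW0.le hN0.le]
      have : W ^ s ≤ W := by
        calc W ^ s ≤ W ^ (1 : ℝ) := Real.rpow_le_rpow_of_exponent_le hW1 hs1
          _ = W := Real.rpow_one W
      gcongr
    have h2 : W ≤ W * N ^ s := le_mul_of_one_le_right hW0.le hNs
    calc mu u A σ W T ≤ (2 + A) * (W * N) ^ s + W := hmu
      _ ≤ (2 + A) * (W * N ^ s) + W * N ^ s := by gcongr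
      _ = (3 + A) * W * N ^ s := by ring
  -- the reciprocal of m₁
  have hNΛ : 0 < N * Λ := by positivity
  have hm1 : 1 / m₁ ≤ 5 * (u : ℝ) ^ 7 * η / (N * Λ) := by
    rw [div_le_div_iff₀ hm0 hNΛ, ← hm]
    have : (u : ℝ) ^ 6 * (3 * u + 2) * η ≤ 5 * (u : ℝ) ^ 7 * η := by gcongr
    nlinarith
  have hMs2 : (2 * Ms u / η) ^ 2 ≤ 16384 * (u : ℝ) ^ 4 / η ^ 2 := by
    rw [div_pow]
    have : (2 * Ms u) ^ 2 ≤ 16384 * (u : ℝ) ^ 4 := by
      calc (2 * Ms u) ^ 2 ≤ (2 * (64 * (u : ℝ) ^ 2)) ^ 2 := by gcongr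
        _ = 16384 * (u : ℝ) ^ 4 := by ring
    gcongr
  have hexp : N ^ s / N = N ^ (-(2 * (1 / (2 * (σ + 1))))) := by
    nth_rw 2 [← Real.rpow_one N]
    rw [← Real.rpow_sub hN0, hs]
    congr 1
    field_simp
    ring
  calc 1 / m₁ * (2 * Ms u / η) ^ 2 * (16 * u * (Cf * mu u A σ W T))
      ≤ 5 * (u : ℝ) ^ 7 * η / (N * Λ) * (16384 * (u : ℝ) ^ 4 / η ^ 2) *
          (16 * u * (Cf * ((3 + A) * W * N ^ s))) := by
        gcongr
    _ = (5 * 16384 * 16 * 1024 * Cf * (3 + A)) * (u : ℝ) ^ 14 * (N ^ s / N) / Λ * (1 / η) := by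
        rw [hWe]
        field_simp
    _ ≤ (5 * 16384 * 16 * 1024 * Cf * (3 + A)) * (u : ℝ) ^ 14 * (N ^ s / N) / Λ *
          ((u : ℝ) ^ 6 / Λ) := by
        gcongr
    _ = (5 * 16384 * 16 * 1024 * Cf * (3 + A)) * (u : ℝ) ^ 20 * (N ^ s / N) * (1 / Λ ^ 2) := by
        field_simp
    _ ≤ (5 * 16384 * 16 * 1024 * Cf * (3 + A)) * (u : ℝ) ^ 20 * (N ^ s / N) * (2 * Λ ^ (-q)) := by
        have := lam_two Λ q hΛ hΛ2 (by linarith) hq
        gcongr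
    _ = 2 * (5 * 16384 * 16 * 1024 * Cf * (3 + A)) * (u : ℝ) ^ 20 *
          N ^ (-(2 * (1 / (2 * (σ + 1))))) * Λ ^ (-q) := by
        rw [hexp]
        ring
    _ ≤ C * (2 : ℝ) ^ (-(1 / (2 * (σ + 1)) * (u : ℝ))) * Λ ^ (-q) := hab u Λ q hΛ

end Pool.Agent.Helper43.RG
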