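import Pool.Agent.Helper43.RG.Num

/-!
# Module NBB of project RG (MP_cb927e_an): numbers, classes with few hits
-/

set_option autoImplicit false

open Set Filter Topology

namespace Pool.Agent.Helper43.RG

open Pool.Agent.Helper20.RG

theorem hNBB : StNBB := by
  intro Cf A σ q hCf hA hσ hσq hq
  have hσ0 : 0 < σ := by linarith
  have hσ1 : 0 < σ + 1 := by linarith
  set c₀ : ℝ := (400 * (A + 1)) ^ σ with hc₀
  have hc₀1 : 1 ≤ c₀ := Real.one_le_rpow (by linarith) hσ0.le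
  have hc₀0 : 0 < c₀ := lt_of_lt_of_le one_pos hc₀1
  set c₁ : ℝ := 16384 * 16 * Cf * ((3 + A) * (512 * c₀)) with hc₁
  have hc₁0 : 0 < c₁ := by positivity
  set ε : ℝ := (q - σ) / (4 * (σ + 1)) with hε
  have hε0 : 0 < ε := div_pos (by linarith) (by positivity)
  obtain ⟨C, hC, hab⟩ := absorb 34 (c₁ * 625) ε (by positivity) hε0
  obtain ⟨u₁, hu₁⟩ := big 2000 7 ((q - σ) / 2) (by linarith)
  refine ⟨max 1 u₁, C, ε, hC, hε0, fun u Λ η M b huu hnum hb1 hb3 hns => ?_⟩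
  have hu : 1 ≤ u := le_trans (le_max_left _ _) huu
  have hbig := hu₁ u (le_trans (le_max_right _ _) huu)
  obtain ⟨hΛ, hΛ2, hη, hη1, hm0, hm, hD5, hinv, hNL, hNL1, hmlo, hmhi⟩ :=
    num_basic u σ q Λ η M hu hσq hnum
  have hu1 : (1 : ℝ) ≤ u := by exact_mod_cast hu
  have hu0 : (0 : ℝ) < u := by linarith
  have hN := N_one u
  have hN0 := N_pos u
  obtain ⟨hMs0, hMs⟩ := Ms_le u hu
  set N : ℝ := (2 : ℝ) ^ u with hNd
  set D : ℝ := (u : ℝ) ^ 6 * (3 * u + 2) with hDd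
  have hD0 : 0 < D := by positivity
  have hD1 : 1 ≤ D := by
    have h1 : (1 : ℝ) ≤ (u : ℝ) ^ 6 := one_le_pow₀ hu1
    have h2 : (1 : ℝ) ≤ 3 * u + 2 := by linarith
    exact one_le_mul_of_one_le_of_one_le h1 h2
  -- m₁ is large
  have hM400 : 400 ≤ M := by
    refine le_trans ?_ hmlo
    rw [le_div_iff₀ hD0]
    linarith
  have hM1 : 1 ≤ M := by linarith
  -- the variable X
  set X : ℝ := (2 : ℝ) ^ (b + 1) * u with hX
  have hX0 : 0 < X := by positivity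
  have hW : (2 : ℝ) ^ b * (1024 * (u : ℝ) ^ 2) = 512 * u * X := by
    rw [hX, pow_succ]
    ring
  rw [hW]
  set W : ℝ := 512 * u * X with hWd
  have hX1 : 1 ≤ X := one_le_mul_of_one_le_of_one_le (one_le_pow₀ (by norm_num)) hu1
  have hW1 : 1 ≤ W := by
    have : (1 : ℝ) ≤ 512 * u := by linarith
    exact one_le_mul_of_one_le_of_one_le this hX1
  have hW0 : 0 < W := lt_of_lt_of_le one_pos hW1
  obtain ⟨T, hT1, hmu0, hmu⟩ := muT u A σ W hW1 hA hσ0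
  refine ⟨T, hT1, ?_⟩
  rw [← hNd] at hmu
  -- bound for X
  have hXs : X ^ (1 / σ) ≤ 400 * (A + 1) * (N / M) := by
    have h1 : M < 200 * (1 + N * (A * X ^ (-(1 / σ)))) := hns
    have h2 : M / 400 ≤ N * (A * X ^ (-(1 / σ))) := by linarith
    have h3 : X ^ (-(1 / σ)) * X ^ (1 / σ) = 1 := by
      rw [← Real.rpow_add hX0]
      simp
    have h4 : M / 400 * X ^ (1 / σ) ≤ N * A := by
      calc M / 400 * X ^ (1 / σ) ≤ N * (A * X ^ (-(1 / σ))) * X ^ (1 / σ) := by gcongr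
        _ = N * A * (X ^ (-(1 / σ)) * X ^ (1 / σ)) := by ring
        _ = N * A := by rw [h3, mul_one]
    have h5 : X ^ (1 / σ) ≤ 400 * A * (N / M) := by
      rw [mul_div_assoc', le_div_iff₀ hm0]
      linarith
    refine h5.trans ?_
    have : 0 ≤ N / M := by positivity
    nlinarith
  have hXb : X ≤ c₀ * (N / M) ^ σ := by
    have h1 : X = (X ^ (1 / σ)) ^ σ := by
      rw [← Real.rpow_mul hX0.le, one_div_mul_cancel hσ0.ne', Real.rpow_one]
    rw [h1, hc₀, ← Real.mul_rpow (by positivity) (by positivity)]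
    exact Real.rpow_le_rpow (by positivity) hXs hσ0.le
  set τ : ℝ := σ ^ 2 / (σ + 1) with hτ
  have hτσ : τ ≤ σ := by
    rw [hτ, div_le_iff₀ hσ1]
    nlinarith
  have hτ0 : 0 ≤ τ := by positivity
  set B : ℝ := 512 * u * c₀ with hB
  have hB1 : 1 ≤ B := by
    have : (1 : ℝ) ≤ 512 * u := by linarith
    exact one_le_mul_of_one_le_of_one_le this hc₀1
  have hB0 : 0 < B := lt_of_lt_of_le one_pos hB1
  clear_value B
  have hWb : W ≤ B * (N / M) ^ σ := by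
    calc W = 512 * u * X := rfl
      _ ≤ 512 * u * (c₀ * (N / M) ^ σ) := by gcongr
      _ = B * (N / M) ^ σ := by rw [hB]; ring
  have hsum : 0 < σ / (σ + 1) := by positivity
  have hs1 : σ / (σ + 1) ≤ 1 := by rw [div_le_one hσ1]; linarith
  have hW2 : W ≤ B * (N ^ σ * M ^ (-τ)) := by
    refine hWb.trans ?_
    have h1 : (N / M) ^ σ = N ^ σ * M ^ (-σ) := by
      rw [Real.div_rpow hN0.le hm0.le, Real.rpow_neg hm0.le]
      rfl
    rw [h1]
    have h2 : M ^ (-σ) ≤ M ^ (-τ) := Real.rpow_le_rpow_of_exponent_le hM1 (by linarith)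
    gcongr
  have hWN : (W * N) ^ (σ / (σ + 1)) ≤ B * (N ^ σ * M ^ (-τ)) := by
    have h1 : W * N ≤ B * (N ^ (σ + 1) * M ^ (-σ)) := by
      calc W * N ≤ B * (N / M) ^ σ * N := by gcongr
        _ = B * (N ^ (σ + 1) * M ^ (-σ)) := by
          rw [Real.div_rpow hN0.le hm0.le, Real.rpow_neg hm0.le, Real.rpow_add hN0, Real.rpow_one]
          ring
    have h2 : (W * N) ^ (σ / (σ + 1)) ≤ (B * (N ^ (σ + 1) * M ^ (-σ))) ^ (σ / (σ + 1)) :=
      Real.rpow_le_rpow (by positivity) h1 hsum.le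
    refine h2.trans ?_
    have hY : 0 ≤ N ^ (σ + 1) * M ^ (-σ) := by positivity
    have hp : (B * (N ^ (σ + 1) * M ^ (-σ))) ^ (σ / (σ + 1)) =
        B ^ (σ / (σ + 1)) * (N ^ (σ + 1) * M ^ (-σ)) ^ (σ / (σ + 1)) :=
      Real.mul_rpow hB0.le hY
    rw [hp, Real.mul_rpow (by positivity) (by positivity),
      ← Real.rpow_mul hN0.le, ← Real.rpow_mul hm0.le]
    have e1 : (σ + 1) * (σ / (σ + 1)) = σ := by field_simp
    have e2 : -σ * (σ / (σ + 1)) = -τ := by rw [hτ]; ring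
    rw [e1, e2]
    have h3 : B ^ (σ / (σ + 1)) ≤ B := by
      calc B ^ (σ / (σ + 1)) ≤ B ^ (1 : ℝ) := Real.rpow_le_rpow_of_exponent_le hB1 hs1
        _ = B := Real.rpow_one B
    gcongr
  have hmu2 : mu u A σ W T ≤ (3 + A) * (B * (N ^ σ * M ^ (-τ))) := by
    calc mu u A σ W T ≤ (2 + A) * (W * N) ^ (σ / (σ + 1)) + W := hmu
      _ ≤ (2 + A) * (B * (N ^ σ * M ^ (-τ))) + B * (N ^ σ * M ^ (-τ)) := by gcongr
      _ = (3 + A) * (B * (N ^ σ * M ^ (-τ))) := by ring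
  have hMs2 : (2 * Ms u / η) ^ 2 ≤ 16384 * (u : ℝ) ^ 4 / η ^ 2 := by
    rw [div_pow]
    have : (2 * Ms u) ^ 2 ≤ 16384 * (u : ℝ) ^ 4 := by
      calc (2 * Ms u) ^ 2 ≤ (2 * (64 * (u : ℝ) ^ 2)) ^ 2 := by gcongr
        _ = 16384 * (u : ℝ) ^ 4 := by ring
    gcongr
  -- the main cancellation
  have hkey : N ^ σ * M ^ (-τ) / M / η ^ 2 ≤ M ^ (-(1 / (σ + 1))) * D ^ 3 * Λ ^ (-q) := by
    have hNe : N ^ q = M ^ q * D ^ q * η ^ q * Λ ^ (-q) := by
      have h1 : N = M * (D * η) * Λ⁻¹ := by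
        rw [hm]
        field_simp
      conv_lhs => rw [h1]
      rw [Real.mul_rpow (by positivity) (by positivity), Real.mul_rpow hm0.le (by positivity),
        Real.mul_rpow hD0.le hη.le, Real.inv_rpow hΛ.le, Real.rpow_neg hΛ.le]
      ring
    have h1 : N ^ σ = N ^ (σ - q) * (M ^ q * D ^ q * η ^ q * Λ ^ (-q)) := by
      rw [← hNe, ← Real.rpow_add hN0]
      congr 1
      ring
    have h2 : N ^ σ * M ^ (-τ) / M / η ^ 2 =
        N ^ (σ - q) * M ^ (q - σ) * (M ^ (-(1 / (σ + 1))) * D ^ q * Λ ^ (-q)) * η ^ (q - 2) := by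
      have e1 : M ^ q * M ^ (-τ) / M = M ^ (q - σ) * M ^ (-(1 / (σ + 1))) := by
        nth_rw 3 [← Real.rpow_one M]
        rw [← Real.rpow_add hm0, ← Real.rpow_sub hm0, ← Real.rpow_add hm0]
        congr 1
        rw [hτ]
        field_simp
        ring
      have e2 : η ^ q / η ^ 2 = η ^ (q - 2) := by
        rw [Real.rpow_sub hη]
        norm_cast
      rw [h1]
      calc N ^ (σ - q) * (M ^ q * D ^ q * η ^ q * Λ ^ (-q)) * M ^ (-τ) / M / η ^ 2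
          = N ^ (σ - q) * (M ^ q * M ^ (-τ) / M) * D ^ q * Λ ^ (-q) * (η ^ q / η ^ 2) := by ring
        _ = _ := by rw [e1, e2]; ring
    have h3 : N ^ (σ - q) * M ^ (q - σ) ≤ 1 := by
      have : M ^ (q - σ) ≤ N ^ (q - σ) := Real.rpow_le_rpow hm0.le hmhi (by linarith)
      calc N ^ (σ - q) * M ^ (q - σ) ≤ N ^ (σ - q) * N ^ (q - σ) := by gcongr
        _ = 1 := by
          rw [← Real.rpow_add hN0]
          simp
    have h4 : η ^ (q - 2) ≤ 1 := Real.rpow_le_one hη.le hη1 (by linarith)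
    have h5 : D ^ q ≤ D ^ 3 := by
      calc D ^ q ≤ D ^ (3 : ℝ) := Real.rpow_le_rpow_of_exponent_le hD1 hq.le
        _ = D ^ 3 := by norm_cast
    rw [h2]
    calc N ^ (σ - q) * M ^ (q - σ) * (M ^ (-(1 / (σ + 1))) * D ^ q * Λ ^ (-q)) * η ^ (q - 2)
        ≤ 1 * (M ^ (-(1 / (σ + 1))) * D ^ 3 * Λ ^ (-q)) * 1 := by gcongr
      _ = _ := by ring
  have hMlow : M ^ (-(1 / (σ + 1))) ≤ N ^ (-(2 * ε)) * D := by
    have h1 : (N ^ ((q - σ) / 2) / D) ^ (1 / (σ + 1)) ≤ M ^ (1 / (σ + 1)) :=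
      Real.rpow_le_rpow (by positivity) hmlo (by positivity)
    rw [Real.div_rpow (by positivity) hD0.le, ← Real.rpow_mul hN0.le] at h1
    have e1 : (q - σ) / 2 * (1 / (σ + 1)) = 2 * ε := by
      rw [hε]
      field_simp
      ring
    rw [e1] at h1
    have h2 : D ^ (1 / (σ + 1)) ≤ D := by
      calc D ^ (1 / (σ + 1)) ≤ D ^ (1 : ℝ) := by
            refine Real.rpow_le_rpow_of_exponent_le hD1 ?_
            rw [div_le_one hσ1]
            linarith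
        _ = D := Real.rpow_one D
    rw [Real.rpow_neg hm0.le, Real.rpow_neg hN0.le]
    have h3 : N ^ (2 * ε) / D ≤ M ^ (1 / (σ + 1)) := by
      refine le_trans ?_ h1
      gcongr
    calc (M ^ (1 / (σ + 1)))⁻¹ ≤ (N ^ (2 * ε) / D)⁻¹ := by
          refine inv_anti₀ (by positivity) h3
      _ = (N ^ (2 * ε))⁻¹ * D := by
          rw [inv_div]
          ring
  calc 1 / M * (2 * Ms u / η) ^ 2 * (16 * u * (Cf * mu u A σ W T))
      ≤ 1 / M * (16384 * (u : ℝ) ^ 4 / η ^ 2) *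
          (16 * u * (Cf * ((3 + A) * (B * (N ^ σ * M ^ (-τ)))))) := by
        gcongr
    _ = c₁ * (u : ℝ) ^ 6 * (N ^ σ * M ^ (-τ) / M / η ^ 2) := by
        rw [hc₁, hB]
        field_simp
    _ ≤ c₁ * (u : ℝ) ^ 6 * (M ^ (-(1 / (σ + 1))) * D ^ 3 * Λ ^ (-q)) := by gcongr
    _ ≤ c₁ * (u : ℝ) ^ 6 * (N ^ (-(2 * ε)) * D * D ^ 3 * Λ ^ (-q)) := by gcongr
    _ = c₁ * (u : ℝ) ^ 6 * (N ^ (-(2 * ε)) * D ^ 4 * Λ ^ (-q)) := by ring
    _ ≤ c₁ * (u : ℝ) ^ 6 * (N ^ (-(2 * ε)) * (5 * (u : ℝ) ^ 7) ^ 4 * Λ ^ (-q)) := by gcongr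
    _ = c₁ * 625 * (u : ℝ) ^ 34 * N ^ (-(2 * ε)) * Λ ^ (-q) := by ring
    _ ≤ C * (2 : ℝ) ^ (-(ε * (u : ℝ))) * Λ ^ (-q) := hab u Λ q hΛ

end Pool.Agent.Helper43.RG
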