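import Pool.Agent.Helper43.RG.Num

/-!
# Module NBC of project RG (MP_cb927e_an): numbers, conditions for large `u`
-/

set_option autoImplicit false

open Set Filter Topology

namespace Pool.Agent.Helper43.RG

open Pool.Agent.Helper20.RG

theorem hNBC : StNBC := by
  intro Cf σ q hCf hσ hσq hq
  have hδ : 0 < (q - σ) / 2 := by linarith
  obtain ⟨u₁, hu₁⟩ := big 5000 7 ((q - σ) / 2) hδ
  obtain ⟨u₂, hu₂⟩ := big (204800 * Cf * 5) 13 ((q - σ) / 2) hδ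
  obtain ⟨u₃, hu₃⟩ := big 1 6 2 two_pos
  refine ⟨max 1 (max u₁ (max u₂ u₃)), 24 * Cf, 1, by positivity, one_pos,
    fun u Λ η M K huu hnum hK0 hK => ?_⟩
  have hu : 1 ≤ u := le_trans (le_max_left _ _) huu
  have huu2 := le_trans (le_max_right _ _) huu
  have hbig1 := hu₁ u (le_trans (le_max_left _ _) huu2)
  have huu3 := le_trans (le_max_right _ _) huu2
  have hbig2 := hu₂ u (le_trans (le_max_left _ _) huu3)
  have hbig3 := hu₃ u (le_trans (le_max_right _ _) huu3)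
  obtain ⟨hΛ, hΛ2, hη, hη1, hm0, hm, hD5, hinv, hNL, hNL1, hmlo, hmhi⟩ :=
    num_basic u σ q Λ η M hu hσq hnum
  have hu1 : (1 : ℝ) ≤ u := by exact_mod_cast hu
  have hu0 : (0 : ℝ) < u := by linarith
  have hN := N_one u
  have hN0 := N_pos u
  have huN : (u : ℝ) ≤ (2 : ℝ) ^ u := by
    exact_mod_cast (Nat.lt_two_pow_self (n := u)).le
  have hKN : K ≤ Cf * ((2 : ℝ) ^ u) ^ 3 := by
    refine hK.trans ?_
    rw [two_rpow]
    have : ((2 : ℝ) ^ u) ^ σ ≤ ((2 : ℝ) ^ u) ^ 3 := by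
      calc ((2 : ℝ) ^ u) ^ σ ≤ ((2 : ℝ) ^ u) ^ (3 : ℝ) :=
            Real.rpow_le_rpow_of_exponent_le hN (by linarith)
        _ = ((2 : ℝ) ^ u) ^ 3 := by norm_cast
    gcongr
  have e16 : (1 / 2 : ℝ) ^ (16 * u) = 1 / ((2 : ℝ) ^ u) ^ 16 := by
    rw [one_div_pow, ← pow_mul, mul_comm]
  have e3 : (2 : ℝ) ^ (-(3 * (u : ℤ))) = 1 / ((2 : ℝ) ^ u) ^ 3 := by
    rw [zpow_neg, ← one_div]
    congr 1
    rw [← pow_mul, ← zpow_natCast]
    congr 1
    push_cast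
    ring
  have e1 : (2 : ℝ) ^ (-(1 * (u : ℝ))) = 1 / (2 : ℝ) ^ u := by
    rw [one_mul, Real.rpow_neg (by norm_num), Real.rpow_natCast, one_div]
  rw [e16, e3, e1]
  set N : ℝ := (2 : ℝ) ^ u with hNd
  set D : ℝ := (u : ℝ) ^ 6 * (3 * u + 2) with hDd
  have hD0 : 0 < D := by positivity
  have hη6 : Λ / (u : ℝ) ^ 6 ≤ η := hnum.2.2.2.1
  have hinvL : 1 / Λ ≤ N := by
    rw [div_le_iff₀ hΛ]
    exact hNL1
  have hNη : N ^ ((q - σ) / 2) / (u : ℝ) ^ 6 ≤ N * η := by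
    calc N ^ ((q - σ) / 2) / (u : ℝ) ^ 6 ≤ N * Λ / (u : ℝ) ^ 6 := by gcongr
      _ = N * (Λ / (u : ℝ) ^ 6) := by ring
      _ ≤ N * η := by gcongr
  refine ⟨?_, ?_, ?_, ?_⟩
  · refine le_trans ?_ hmlo
    rw [le_div_iff₀ hD0]
    linarith
  · have h1 : 204800 * Cf * D ≤ N * η := by
      refine le_trans ?_ hNη
      rw [le_div_iff₀ (by positivity)]
      calc 204800 * Cf * D * (u : ℝ) ^ 6 ≤ 204800 * Cf * (5 * (u : ℝ) ^ 7) * (u : ℝ) ^ 6 := by
            gcongr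
        _ = 204800 * Cf * 5 * (u : ℝ) ^ 13 := by ring
        _ ≤ N ^ ((q - σ) / 2) := hbig2
    have h2 : M = N * Λ / (D * η) := by
      rw [eq_div_iff (by positivity)]
      exact hm
    rw [h2, le_div_iff₀ (by positivity)]
    calc 200 * (64 * (16 * Cf * Λ / η ^ 2)) * (D * η) = 204800 * Cf * D * (Λ / η) := by
          field_simp
          ring
      _ ≤ N * η * (Λ / η) := by gcongr
      _ = N * Λ := by field_simp
  · have h1 : (u : ℝ) ^ 6 ≤ N ^ 2 := by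
      calc (u : ℝ) ^ 6 = 1 * (u : ℝ) ^ 6 := (one_mul _).symm
        _ ≤ N ^ (2 : ℝ) := hbig3
        _ = N ^ 2 := by norm_cast
    refine le_trans ?_ hη6
    rw [div_le_div_iff₀ (by positivity) (by positivity)]
    calc 1 * (u : ℝ) ^ 6 ≤ 1 * N ^ 2 := by gcongr
      _ ≤ (N * Λ) * N ^ 2 := by gcongr
      _ = Λ * N ^ 3 := by ring
  · have h1 : K + u + 1 ≤ 3 * Cf * N ^ 3 := by
      have h3 : N ≤ N ^ 3 := by
        calc N = N ^ 1 := (pow_one N).symm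
          _ ≤ N ^ 3 := pow_le_pow_right₀ hN (by norm_num)
      have h4 : N ^ 3 ≤ Cf * N ^ 3 := le_mul_of_one_le_left (by positivity) hCf
      have h5 : (1 : ℝ) ≤ N := hN
      linarith
    have h2 : 1 / 8 ≤ Λ ^ (-q) := by
      have h3 : Λ ^ q ≤ 8 := by
        calc Λ ^ q ≤ (2 : ℝ) ^ q := Real.rpow_le_rpow hΛ.le hΛ2 (by linarith)
          _ ≤ (2 : ℝ) ^ (3 : ℝ) := Real.rpow_le_rpow_of_exponent_le (by norm_num) hq.le
          _ = 8 := by norm_num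
      rw [Real.rpow_neg hΛ.le, ← one_div]
      exact one_div_le_one_div_of_le (by positivity) h3
    have h3 : 1 / N ^ 16 / (16 * Cf * Λ / η ^ 2) * ((4 / η) ^ 2 * (Cf * (K + u + 1))) =
        1 / N ^ 16 * (K + u + 1) * (1 / Λ) := by
      field_simp
      ring
    rw [h3]
    calc 1 / N ^ 16 * (K + u + 1) * (1 / Λ) ≤ 1 / N ^ 16 * (3 * Cf * N ^ 3) * N := by gcongr
      _ = 3 * Cf * (1 / N ^ 12) := by field_simp
      _ ≤ 3 * Cf * (1 / N) := by
          have : N ≤ N ^ 12 := by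
            calc N = N ^ 1 := (pow_one N).symm
              _ ≤ N ^ 12 := pow_le_pow_right₀ hN (by norm_num)
          gcongr
      _ = 24 * Cf * (1 / N) * (1 / 8) := by ring
      _ ≤ 24 * Cf * (1 / N) * Λ ^ (-q) := by gcongr

end Pool.Agent.Helper43.RG
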