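import Pool.Agent.Helper43.RG.Num

/-!
# Module NBD of project RG (MP_cb927e_an): numbers, classes with windows
-/

set_option autoImplicit false

open Set Filter Topology

namespace Pool.Agent.Helper43.RG

open Pool.Agent.Helper20.RG

/-- bound for the number `ns` -/
theorem ns_le (u b : ℕ) (A σ : ℝ) (hu : 1 ≤ u) (hA : 0 ≤ A) (hσ : 2 < σ) :
    ns u b A σ ≤ 1 + 512 * u * A * ((2 : ℝ) ^ u *
      ((2 : ℝ) ^ b * (1024 * (u : ℝ) ^ 2)) ^ (-(1 / σ))) := by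
  have hu1 : (1 : ℝ) ≤ u := by exact_mod_cast hu
  have hX0 : 0 < (2 : ℝ) ^ (b + 1) * (u : ℝ) := by positivity
  have hW : (2 : ℝ) ^ b * (1024 * (u : ℝ) ^ 2) = (512 * u) * ((2 : ℝ) ^ (b + 1) * u) := by
    rw [pow_succ]
    ring
  have hc : (1 : ℝ) ≤ 512 * u := by linarith
  have h1 : ((2 : ℝ) ^ (b + 1) * (u : ℝ)) ^ (-(1 / σ)) ≤
      512 * u * ((2 : ℝ) ^ b * (1024 * (u : ℝ) ^ 2)) ^ (-(1 / σ)) := by
    rw [hW, Real.mul_rpow (by positivity) hX0.le]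
    have h2 : (512 * (u : ℝ)) ^ (1 : ℝ) * (512 * (u : ℝ)) ^ (-(1 / σ)) =
        (512 * (u : ℝ)) ^ (1 - 1 / σ) := by
      rw [← Real.rpow_add (by positivity)]
      congr 1
    have h3 : 1 ≤ (512 * (u : ℝ)) ^ (1 - 1 / σ) := by
      refine Real.one_le_rpow hc ?_
      have : 1 / σ ≤ 1 := by
        rw [div_le_one (by linarith)]
        linarith
      linarith
    rw [Real.rpow_one] at h2
    calc ((2 : ℝ) ^ (b + 1) * (u : ℝ)) ^ (-(1 / σ))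
        = 1 * ((2 : ℝ) ^ (b + 1) * (u : ℝ)) ^ (-(1 / σ)) := (one_mul _).symm
      _ ≤ (512 * (u : ℝ)) ^ (1 - 1 / σ) * ((2 : ℝ) ^ (b + 1) * (u : ℝ)) ^ (-(1 / σ)) := by gcongr
      _ = 512 * u * ((512 * (u : ℝ)) ^ (-(1 / σ)) *
          ((2 : ℝ) ^ (b + 1) * (u : ℝ)) ^ (-(1 / σ))) := by rw [← h2]; ring
  unfold ns
  calc 1 + (2 : ℝ) ^ u * (A * ((2 : ℝ) ^ (b + 1) * (u : ℝ)) ^ (-(1 / σ)))
      ≤ 1 + (2 : ℝ) ^ u * (A * (512 * u * ((2 : ℝ) ^ b * (1024 * (u : ℝ) ^ 2)) ^ (-(1 / σ)))) := by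
        gcongr
    _ = _ := by ring

/-- the choice of `V` -/
theorem choiceV (Cf A σ : ℝ) (hCf : 1 ≤ Cf) (hA : 0 ≤ A) (hσ : 2 < σ) (hσ3 : σ < 3) (u : ℕ)
    (η K : ℝ) (b : ℕ) (hu : 1 ≤ u) (hη : 0 < η) (hK0 : 0 ≤ K) (hK : K ≤ Cf * (2 : ℝ) ^ (σ * u))
    (hb1 : 1 ≤ b) (hb : b ≤ 3 * u + 1) :
    ∃ V : ℝ, 0 ≤ V ∧ (V = (4 / η) ^ 2 * (Cf * (K + u + 1)) ∨ (b ≤ 3 * u ∧ ∃ T : ℕ, 1 ≤ T ∧
        V = (4 * Ms u / η) ^ 2 * (16 * u * (Cf * mu u A σ ((2 : ℝ) ^ b * (1024 * (u : ℝ) ^ 2)) T)))) ∧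
      ns u b A σ * V ≤ 65536 * 16 * Cf ^ 2 * (3 + A) * (512 * (1 + A)) * (u : ℝ) ^ 6 *
        ((2 : ℝ) ^ u) ^ σ / η ^ 2 := by
  have hσ0 : 0 < σ := by linarith
  have hσ1 : 0 < σ + 1 := by linarith
  have hu1 : (1 : ℝ) ≤ u := by exact_mod_cast hu
  have hu0 : (0 : ℝ) < u := by linarith
  have hN := N_one u
  have hN0 := N_pos u
  have hns := ns_le u b A σ hu hA hσ
  have hns0 : 0 ≤ ns u b A σ := by
    unfold ns
    positivity
  obtain ⟨hMs0, hMs⟩ := Ms_le u hu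
  have huN : (u : ℝ) ≤ (2 : ℝ) ^ u := by
    exact_mod_cast (Nat.lt_two_pow_self (n := u)).le
  rw [two_rpow] at hK
  have hW1 : 1 ≤ (2 : ℝ) ^ b * (1024 * (u : ℝ) ^ 2) := by
    refine one_le_mul_of_one_le_of_one_le (one_le_pow₀ (by norm_num)) ?_
    have : (1 : ℝ) ≤ (u : ℝ) ^ 2 := one_le_pow₀ hu1
    linarith
  have hWb : 3 * u < b → ((2 : ℝ) ^ u) ^ σ ≤ (2 : ℝ) ^ b * (1024 * (u : ℝ) ^ 2) := by
    intro h
    calc ((2 : ℝ) ^ u) ^ σ ≤ ((2 : ℝ) ^ u) ^ (3 : ℝ) :=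
          Real.rpow_le_rpow_of_exponent_le hN hσ3.le
      _ = ((2 : ℝ) ^ u) ^ 3 := by norm_cast
      _ = (2 : ℝ) ^ (3 * u) := by rw [← pow_mul, mul_comm]
      _ ≤ (2 : ℝ) ^ b := pow_le_pow_right₀ (by norm_num) h.le
      _ = (2 : ℝ) ^ b * 1 := (mul_one _).symm
      _ ≤ (2 : ℝ) ^ b * (1024 * (u : ℝ) ^ 2) := by
        have : (1 : ℝ) ≤ (u : ℝ) ^ 2 := one_le_pow₀ hu1
        gcongr
        linarith
  obtain ⟨T, hT1, hmu0, hmu⟩ := muT u A σ ((2 : ℝ) ^ b * (1024 * (u : ℝ) ^ 2)) hW1 hA hσ0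
  generalize (2 : ℝ) ^ b * (1024 * (u : ℝ) ^ 2) = W at hns hW1 hWb hmu hmu0 ⊢
  have hW0 : 0 < W := lt_of_lt_of_le one_pos hW1
  generalize (2 : ℝ) ^ u = N at hN hN0 hns huN hK hWb hmu ⊢
  have hNσ1 : N ≤ N ^ σ := by
    calc N = N ^ (1 : ℝ) := (Real.rpow_one N).symm
      _ ≤ N ^ σ := Real.rpow_le_rpow_of_exponent_le hN (by linarith)
  have ha : 1 + 512 * u * A ≤ 512 * (1 + A) * u := by
    have : (1 : ℝ) ≤ 512 * u := by linarith
    linarith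
  rcases le_or_gt (N ^ σ) W with hc | hc
  · refine ⟨_, ?_, Or.inl rfl, ?_⟩
    · positivity
    · have h1 : W ^ (-(1 / σ)) ≤ N⁻¹ := by
        calc W ^ (-(1 / σ)) ≤ (N ^ σ) ^ (-(1 / σ)) :=
              Real.rpow_le_rpow_of_nonpos (by positivity) hc (by simp [hσ0.le])
          _ = N⁻¹ := by
              rw [← Real.rpow_mul hN0.le, ← Real.rpow_neg_one]
              congr 1
              field_simp
      have h2 : ns u b A σ ≤ 512 * (1 + A) * u := by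
        refine hns.trans (le_trans ?_ ha)
        calc 1 + 512 * u * A * (N * W ^ (-(1 / σ))) ≤ 1 + 512 * u * A * (N * N⁻¹) := by gcongr
          _ = 1 + 512 * u * A := by rw [mul_inv_cancel₀ hN0.ne', mul_one]
      have h3 : K + u + 1 ≤ 3 * Cf * N ^ σ := by
        have h4 : N ^ σ ≤ Cf * N ^ σ := le_mul_of_one_le_left (by positivity) hCf
        linarith
      have h5 : (u : ℝ) ≤ (u : ℝ) ^ 6 := by
        calc (u : ℝ) = (u : ℝ) ^ 1 := (pow_one _).symm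
          _ ≤ (u : ℝ) ^ 6 := pow_le_pow_right₀ hu1 (by norm_num)
      have h6 : (1 : ℝ) ≤ 3 + A := by linarith
      calc ns u b A σ * ((4 / η) ^ 2 * (Cf * (K + u + 1)))
          ≤ 512 * (1 + A) * u * ((4 / η) ^ 2 * (Cf * (3 * Cf * N ^ σ))) := by gcongr
        _ = 48 * Cf ^ 2 * 1 * (512 * (1 + A)) * u * N ^ σ / η ^ 2 := by
            field_simp
            ring
        _ ≤ 65536 * 16 * Cf ^ 2 * (3 + A) * (512 * (1 + A)) * (u : ℝ) ^ 6 * N ^ σ / η ^ 2 := by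
            gcongr
            norm_num
  · have hb3 : b ≤ 3 * u := by
      by_contra h
      push Not at h
      exact absurd (hWb h) (not_le.2 hc)
    have hs0 : 0 < σ / (σ + 1) := by positivity
    refine ⟨_, ?_, Or.inr ⟨hb3, T, hT1, rfl⟩, ?_⟩
    · positivity
    · have hWN : (W * N) ^ (σ / (σ + 1)) ≤ N ^ σ := by
        calc (W * N) ^ (σ / (σ + 1)) ≤ (N ^ σ * N) ^ (σ / (σ + 1)) := by
              refine Real.rpow_le_rpow (by positivity) ?_ hs0.le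
              gcongr
          _ = N ^ σ := by
              nth_rw 2 [← Real.rpow_one N]
              rw [← Real.rpow_add hN0, ← Real.rpow_mul hN0.le]
              congr 1
              field_simp
      have hA1 : N * W ^ (-(1 / σ)) * (W * N) ^ (σ / (σ + 1)) ≤ N ^ σ := by
        have e0 : 0 ≤ σ / (σ + 1) - 1 / σ := by
          have : 1 / σ ≤ σ / (σ + 1) := by
            rw [div_le_div_iff₀ hσ0 hσ1]
            nlinarith
          linarith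
        have e1 : W ^ (σ / (σ + 1) - 1 / σ) ≤ (N ^ σ) ^ (σ / (σ + 1) - 1 / σ) :=
          Real.rpow_le_rpow hW0.le hc.le e0
        have e2 : W ^ (-(1 / σ)) * W ^ (σ / (σ + 1)) = W ^ (σ / (σ + 1) - 1 / σ) := by
          rw [← Real.rpow_add hW0]
          congr 1
          ring
        rw [Real.mul_rpow hW0.le hN0.le]
        calc N * W ^ (-(1 / σ)) * (W ^ (σ / (σ + 1)) * N ^ (σ / (σ + 1)))
            = N * N ^ (σ / (σ + 1)) * W ^ (σ / (σ + 1) - 1 / σ) := by rw [← e2]; ring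
          _ ≤ N * N ^ (σ / (σ + 1)) * (N ^ σ) ^ (σ / (σ + 1) - 1 / σ) := by gcongr
          _ = N ^ σ := by
              nth_rw 1 [← Real.rpow_one N]
              rw [← Real.rpow_add hN0, ← Real.rpow_mul hN0.le, ← Real.rpow_add hN0]
              congr 1
              field_simp
              ring
      have hA2 : N * W ^ (-(1 / σ)) * W ≤ N ^ σ := by
        have e0 : 0 ≤ 1 - 1 / σ := by
          have : 1 / σ ≤ 1 := by
            rw [div_le_one hσ0]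
            linarith
          linarith
        have e2 : W ^ (-(1 / σ)) * W = W ^ (1 - 1 / σ) := by
          nth_rw 2 [← Real.rpow_one W]
          rw [← Real.rpow_add hW0]
          congr 1
          ring
        calc N * W ^ (-(1 / σ)) * W = N * W ^ (1 - 1 / σ) := by rw [mul_assoc, e2]
          _ ≤ N * (N ^ σ) ^ (1 - 1 / σ) := by gcongr
          _ = N ^ σ := by
              nth_rw 1 [← Real.rpow_one N]
              rw [← Real.rpow_mul hN0.le, ← Real.rpow_add hN0]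
              congr 1
              field_simp
              ring
      have hprod : ns u b A σ * mu u A σ W T ≤ (3 + A) * (512 * (1 + A) * u) * N ^ σ := by
        calc ns u b A σ * mu u A σ W T
            ≤ (1 + 512 * u * A * (N * W ^ (-(1 / σ)))) *
              ((2 + A) * (W * N) ^ (σ / (σ + 1)) + W) := by gcongr
          _ = (2 + A) * (W * N) ^ (σ / (σ + 1)) + W +
              512 * u * A * ((2 + A) * (N * W ^ (-(1 / σ)) * (W * N) ^ (σ / (σ + 1))) +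
                N * W ^ (-(1 / σ)) * W) := by ring
          _ ≤ (2 + A) * N ^ σ + N ^ σ + 512 * u * A * ((2 + A) * N ^ σ + N ^ σ) := by gcongr
          _ = (3 + A) * (1 + 512 * u * A) * N ^ σ := by ring
          _ ≤ (3 + A) * (512 * (1 + A) * u) * N ^ σ := by gcongr
      have hMs2 : (4 * Ms u / η) ^ 2 ≤ 65536 * (u : ℝ) ^ 4 / η ^ 2 := by
        rw [div_pow]
        have : (4 * Ms u) ^ 2 ≤ 65536 * (u : ℝ) ^ 4 := by
          calc (4 * Ms u) ^ 2 ≤ (4 * (64 * (u : ℝ) ^ 2)) ^ 2 := by gcongr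
            _ = 65536 * (u : ℝ) ^ 4 := by ring
        gcongr
      calc ns u b A σ * ((4 * Ms u / η) ^ 2 * (16 * u * (Cf * mu u A σ W T)))
          = (4 * Ms u / η) ^ 2 * (16 * u * Cf) * (ns u b A σ * mu u A σ W T) := by ring
        _ ≤ (65536 * (u : ℝ) ^ 4 / η ^ 2) * (16 * u * Cf) *
            ((3 + A) * (512 * (1 + A) * u) * N ^ σ) := by gcongr
        _ = 65536 * 16 * (Cf * 1) * (3 + A) * (512 * (1 + A)) * (u : ℝ) ^ 6 * N ^ σ / η ^ 2 := by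
            ring
        _ ≤ 65536 * 16 * (Cf * Cf) * (3 + A) * (512 * (1 + A)) * (u : ℝ) ^ 6 * N ^ σ / η ^ 2 := by
            gcongr
        _ = 65536 * 16 * Cf ^ 2 * (3 + A) * (512 * (1 + A)) * (u : ℝ) ^ 6 * N ^ σ / η ^ 2 := by
            rw [sq Cf]

theorem hNBD : StNBD := by
  intro Cf A σ q C₂ hCf hA hσ hσq hq hC₂
  set c₁ : ℝ := 65536 * 16 * Cf ^ 2 * (3 + A) * (512 * (1 + A)) with hc₁
  have hc₁0 : 0 < c₁ := by positivity
  clear_value c₁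
  obtain ⟨C, hC, hab⟩ := absorb 34 (16 * 1024 * C₂ * Cf * c₁ * 125) ((q - σ) / 2) (by positivity)
    (by linarith)
  refine ⟨1, C, (q - σ) / 2, hC, by linarith, fun u Λ η M K b hu hnum hK0 hK hb1 hb => ?_⟩
  obtain ⟨hΛ, hΛ2, hη, hη1, hm0, hm, hD5, hinv, hNL, hNL1, hmlo, hmhi⟩ :=
    num_basic u σ q Λ η M hu hσq hnum
  have hu1 : (1 : ℝ) ≤ u := by exact_mod_cast hu
  have hu0 : (0 : ℝ) < u := by linarith
  have hN := N_one u
  have hN0 := N_pos u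
  obtain ⟨V, hV0, hV, hnsV⟩ := choiceV Cf A σ hCf hA hσ (by linarith) u η K b hu hη hK0 hK hb1 hb
  refine ⟨V, hV0, hV, ?_⟩
  rw [← hc₁] at hnsV
  refine le_trans ?_ (hab u Λ q hΛ)
  clear hmlo hmhi hNL
  generalize (2 : ℝ) ^ u = N at hN hN0 hm hNL1 hnsV ⊢
  set D : ℝ := (u : ℝ) ^ 6 * (3 * u + 2) with hDd
  have hD0 : 0 < D := by positivity
  clear_value D
  have hM3 : 1 / M ^ 3 = D ^ 3 * η ^ 3 / (N * Λ) ^ 3 := by
    rw [← hm]
    field_simp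
  have hkey : Λ ^ (-(3 : ℝ)) * N ^ (σ - 3) ≤ N ^ (σ - q) * Λ ^ (-q) := by
    have h1 : Λ ^ (-(3 : ℝ)) * N ^ (σ - 3) = N ^ (σ - q) * Λ ^ (-q) * (N * Λ) ^ (q - 3) := by
      rw [Real.mul_rpow hN0.le hΛ.le]
      have e1 : Λ ^ (-(3 : ℝ)) = Λ ^ (-q) * Λ ^ (q - 3) := by
        rw [← Real.rpow_add hΛ]
        congr 1
        ring
      have e2 : N ^ (σ - 3) = N ^ (σ - q) * N ^ (q - 3) := by
        rw [← Real.rpow_add hN0]
        congr 1
        ring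
      rw [e1, e2]
      ring
    rw [h1]
    have h2 : (N * Λ) ^ (q - 3) ≤ 1 := Real.rpow_le_one_of_one_le_of_nonpos hNL1 (by linarith)
    exact mul_le_of_le_one_right (by positivity) h2
  have hL3 : 1 / Λ ^ 3 * (N ^ σ / N ^ 3) = Λ ^ (-(3 : ℝ)) * N ^ (σ - 3) := by
    rw [Real.rpow_sub hN0, Real.rpow_neg hΛ.le, one_div]
    norm_cast
  calc 16 * u * (C₂ * ns u b A σ * (64 * (16 * Cf * Λ / η ^ 2)) / M ^ 3) * V
      = 16 * 1024 * C₂ * Cf * u * (Λ / η ^ 2) * (1 / M ^ 3) * (ns u b A σ * V) := by ring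
    _ ≤ 16 * 1024 * C₂ * Cf * u * (Λ / η ^ 2) * (1 / M ^ 3) *
        (c₁ * (u : ℝ) ^ 6 * N ^ σ / η ^ 2) := by gcongr
    _ = 16 * 1024 * C₂ * Cf * c₁ * (u : ℝ) ^ 7 * D ^ 3 * ((1 / Λ ^ 2) * (N ^ σ / N ^ 3)) *
        (1 / η) := by
        rw [hM3]
        field_simp
    _ ≤ 16 * 1024 * C₂ * Cf * c₁ * (u : ℝ) ^ 7 * D ^ 3 * ((1 / Λ ^ 2) * (N ^ σ / N ^ 3)) *
        ((u : ℝ) ^ 6 / Λ) := by gcongr
    _ = 16 * 1024 * C₂ * Cf * c₁ * (u : ℝ) ^ 13 * D ^ 3 * ((1 / Λ ^ 3) * (N ^ σ / N ^ 3)) := by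
        field_simp
    _ ≤ 16 * 1024 * C₂ * Cf * c₁ * (u : ℝ) ^ 13 * (5 * (u : ℝ) ^ 7) ^ 3 *
        (N ^ (σ - q) * Λ ^ (-q)) := by
        rw [hL3]
        gcongr
    _ = 16 * 1024 * C₂ * Cf * c₁ * 125 * (u : ℝ) ^ 34 * N ^ (-(2 * ((q - σ) / 2))) *
        Λ ^ (-q) := by
        have : -(2 * ((q - σ) / 2)) = σ - q := by ring
        rw [this]
        ring

end Pool.Agent.Helper43.RG
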