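import Pool.Agent.Helper20.RG.St1
import Pool.Agent.Helper27.LM.M_LD

/-!
# Module WB of project RG (MP_cb927e_an): Markov inequality for one radius
-/

set_option autoImplicit false

open MeasureTheory Set Filter Topology
open scoped ENNReal RealInnerProductSpace

namespace Pool.Agent.Helper43.RG

open Pool.Agent.Helper20.RG
open Pool.Agent.Helper68.LM (Pl DQ)

theorem mem_Sq (x y : Pl) (r : ℝ) : y ∈ Sq x r ↔ |y 0 - x 0| ≤ r ∧ |y 1 - x 1| ≤ r := Iff.rfl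

theorem Sq_symm (x y : Pl) (r : ℝ) : y ∈ Sq x r ↔ x ∈ Sq y r := by
  rw [mem_Sq, mem_Sq, abs_sub_comm (y 0), abs_sub_comm (y 1)]

theorem meas_graph (T : Set Pl) (hT : MeasurableSet T) (ρ : ℝ) :
    MeasurableSet {q : Pl × Pl | q.2 ∈ T ∩ Sq q.1 ρ} := by
  have h0 : ∀ i : Fin 2, Continuous fun q : Pl × Pl => |q.2 i - q.1 i| := fun i => by fun_prop
  have e : {q : Pl × Pl | q.2 ∈ T ∩ Sq q.1 ρ} = (Prod.snd ⁻¹' T) ∩
      ({q : Pl × Pl | |q.2 0 - q.1 0| ≤ ρ} ∩ {q : Pl × Pl | |q.2 1 - q.1 1| ≤ ρ}) := rfl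
  rw [e]
  exact (measurable_snd hT).inter
    ((measurableSet_le (h0 0).measurable measurable_const).inter
      (measurableSet_le (h0 1).measurable measurable_const))

theorem meas_f (T : Set Pl) (hT : MeasurableSet T) (ρ : ℝ) :
    Measurable fun x : Pl => volume (T ∩ Sq x ρ) :=
  measurable_measure_prodMk_left (meas_graph T hT ρ)

theorem int_f (hPT : StPT) (T : Set Pl) (hT : MeasurableSet T) (ρ : ℝ) (hρ : 0 ≤ ρ) :
    ∫⁻ x : Pl, volume (T ∩ Sq x ρ) = ENNReal.ofReal (4 * ρ ^ 2) * volume T := by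
  obtain ⟨-, -, -, -, -, -, -, hsq⟩ := hPT
  have hm := meas_graph T hT ρ
  have e1 : ∫⁻ x : Pl, volume (T ∩ Sq x ρ) =
      (volume.prod volume : Measure (Pl × Pl)) {q : Pl × Pl | q.2 ∈ T ∩ Sq q.1 ρ} :=
    (Measure.prod_apply hm).symm
  rw [e1, Measure.prod_apply_symm hm]
  have e2 : ∀ y : Pl, volume ((fun x : Pl => (x, y)) ⁻¹' {q : Pl × Pl | q.2 ∈ T ∩ Sq q.1 ρ}) =
      T.indicator (fun _ => ENNReal.ofReal (4 * ρ ^ 2)) y := by
    intro y
    by_cases hy : y ∈ T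
    · rw [indicator_of_mem hy, ← (hsq y ρ hρ).2]
      congr 1
      ext x
      refine Iff.trans (?_ : _ ↔ (y ∈ T ∧ y ∈ Sq x ρ)) ?_
      · exact Iff.rfl
      · rw [Sq_symm]
        exact ⟨fun h => h.2, fun h => ⟨hy, h⟩⟩
    · rw [indicator_of_notMem hy]
      have : (fun x : Pl => (x, y)) ⁻¹' {q : Pl × Pl | q.2 ∈ T ∩ Sq q.1 ρ} = ∅ := by
        ext x
        refine ⟨fun h => ?_, fun h => absurd h (notMem_empty x)⟩
        exact absurd (show y ∈ T ∧ y ∈ Sq x ρ from h).1 hy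
      rw [this, measure_empty]
  rw [lintegral_congr e2, lintegral_indicator hT, setLIntegral_const]

theorem mark {X : Type*} [MeasurableSpace X] (μ : Measure X) (f : X → ℝ≥0∞) (hf : Measurable f)
    (V : Set X) (e K : ℝ) (B : ℝ≥0∞) (he : 0 < e) (hV : V ⊆ {x | ENNReal.ofReal e ≤ f x})
    (hB : ∫⁻ x, f x ∂μ ≤ ENNReal.ofReal (e * K) * B) : μ V ≤ ENNReal.ofReal K * B := by
  have h1 : ENNReal.ofReal e * μ V ≤ ENNReal.ofReal (e * K) * B :=
    le_trans (mul_le_mul_right (measure_mono hV) _) (le_trans (mul_meas_ge_le_lintegral hf _) hB)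
  have h2 : ENNReal.ofReal (1 / e) * ENNReal.ofReal e = 1 := by
    rw [← ENNReal.ofReal_mul (by positivity), one_div_mul_cancel he.ne', ENNReal.ofReal_one]
  have h3 : ENNReal.ofReal (1 / e) * ENNReal.ofReal (e * K) = ENNReal.ofReal K := by
    rw [← ENNReal.ofReal_mul (by positivity)]
    congr 1
    field_simp
  calc μ V = ENNReal.ofReal (1 / e) * ENNReal.ofReal e * μ V := by rw [h2, one_mul]
    _ = ENNReal.ofReal (1 / e) * (ENNReal.ofReal e * μ V) := by rw [mul_assoc]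
    _ ≤ ENNReal.ofReal (1 / e) * (ENNReal.ofReal (e * K) * B) := mul_le_mul_right h1 _
    _ = ENNReal.ofReal K * B := by rw [← mul_assoc, h3]

/-- two points of one dyadic square -/
theorem DQ_dist (b : ℤ) (x x' : Pl) (h : x' ∈ DQ b x) : x' ∈ Sq x ((2 : ℝ) ^ b) := by
  have h2 : (0 : ℝ) < (2 : ℝ) ^ b := by positivity
  have key : ∀ i : Fin 2, |x' i - x i| ≤ (2 : ℝ) ^ b := by
    intro i
    have h1 : ⌊x' i / (2 : ℝ) ^ b⌋ = ⌊x i / (2 : ℝ) ^ b⌋ := h i
    have h3 := Int.floor_le (x' i / (2 : ℝ) ^ b)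
    have h4 := Int.lt_floor_add_one (x' i / (2 : ℝ) ^ b)
    have h5 := Int.floor_le (x i / (2 : ℝ) ^ b)
    have h6 := Int.lt_floor_add_one (x i / (2 : ℝ) ^ b)
    rw [h1] at h3 h4
    have h7 : |x' i / (2 : ℝ) ^ b - x i / (2 : ℝ) ^ b| ≤ 1 := by
      rw [abs_le]
      constructor <;> linarith
    rw [← sub_div, abs_div, abs_of_pos h2, div_le_iff₀ h2, one_mul] at h7
    exact h7
  exact ⟨key 0, key 1⟩

theorem DQ_self (b : ℤ) (x : Pl) : x ∈ DQ b x := fun _ => rfl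

/-- dyadic squares are nested -/
theorem DQ_nest (a b : ℤ) (hba : b ≤ a) (x x' : Pl) (h : x' ∈ DQ b x) : x' ∈ DQ a x := by
  obtain ⟨n, rfl⟩ : ∃ n : ℕ, a = b + n := ⟨(a - b).toNat, by omega⟩
  intro i
  have h1 : ⌊x' i / (2 : ℝ) ^ b⌋ = ⌊x i / (2 : ℝ) ^ b⌋ := h i
  have h2 : (0 : ℝ) < (2 : ℝ) ^ b := by positivity
  have key : ∀ t : ℝ, ⌊t / (2 : ℝ) ^ (b + (n : ℤ))⌋ = ⌊t / (2 : ℝ) ^ b⌋ / ((2 : ℤ) ^ n) := by
    intro t
    have e : t / (2 : ℝ) ^ (b + (n : ℤ)) = t / (2 : ℝ) ^ b / (((2 ^ n : ℕ) : ℝ)) := by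
      rw [zpow_add₀ (by norm_num), div_div]
      push_cast
      rw [zpow_natCast]
    rw [e, Int.floor_div_natCast]
    push_cast
    rfl
  rw [key, key, h1]

theorem tri (x y w : Pl) (r s : ℝ) (h1 : y ∈ Sq x r) (h2 : w ∈ Sq y s) : w ∈ Sq x (r + s) := by
  obtain ⟨a1, a2⟩ := h1
  obtain ⟨b1, b2⟩ := h2
  constructor
  · have : w 0 - x 0 = (y 0 - x 0) + (w 0 - y 0) := by ring
    rw [this]
    exact le_trans (abs_add_le _ _) (add_le_add a1 b1)
  · have : w 1 - x 1 = (y 1 - x 1) + (w 1 - y 1) := by ring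
    rw [this]
    exact le_trans (abs_add_le _ _) (add_le_add a2 b2)

theorem Sq_mono (x : Pl) (r s : ℝ) (h : r ≤ s) : Sq x r ⊆ Sq x s :=
  fun _ hy => ⟨le_trans hy.1 h, le_trans hy.2 h⟩

theorem hWB (hPT : StPT) : StWB := by
  intro N a b r D D₀ S G hba hbr hra hD hD₀ hS hG
  have hb : (0 : ℝ) < (2 : ℝ) ^ b := by positivity
  have ha : (0 : ℝ) < (2 : ℝ) ^ a := by positivity
  have hr : 0 < r := lt_of_lt_of_le hb hbr
  have hfm : Measurable fun x' : Pl => ∑ j ∈ Finset.range N, volume (S j ∩ Sq x' (2 * r)) :=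
    Finset.measurable_fun_sum _ fun j hj => meas_f _ (hS j (Finset.mem_range.1 hj)) _
  have hVf : (⋃ x ∈ {x | x ∈ G ∧ ¬ Dens S N x r D}, DQ b x) ⊆
      {x' | ENNReal.ofReal (D * r ^ 2) ≤ ∑ j ∈ Finset.range N, volume (S j ∩ Sq x' (2 * r))} := by
    intro x' hx'
    obtain ⟨x, ⟨hxG, hx⟩, hxx⟩ := mem_iUnion₂.1 hx'
    have h1 : ENNReal.ofReal (D * r ^ 2) < ∑ j ∈ Finset.range N, volume (S j ∩ Sq x r) :=
      not_le.1 hx
    refine le_trans h1.le (Finset.sum_le_sum fun j _ => measure_mono ?_)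
    rintro y ⟨hyS, hy⟩
    refine ⟨hyS, ?_⟩
    have h2 := DQ_dist b x x' hxx
    rw [Sq_symm] at h2
    have h3 := tri x' x y _ _ h2 hy
    exact Sq_mono _ _ _ (by linarith) h3
  have he : 0 < D * r ^ 2 := by positivity
  constructor
  · refine mark volume _ hfm _ (D * r ^ 2) (16 / D) _ he hVf ?_
    rw [lintegral_finsetSum' _ fun j hj =>
      (meas_f _ (hS j (Finset.mem_range.1 hj)) _).aemeasurable, Finset.mul_sum]
    refine Finset.sum_le_sum fun j hj => ?_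
    rw [int_f hPT _ (hS j (Finset.mem_range.1 hj)) _ (by positivity)]
    refine le_of_eq ?_
    congr 2
    field_simp
    ring
  · intro x₀
    obtain ⟨hQm, hQv⟩ := Pool.Agent.Helper27.LM.hLD.1 a x₀
    by_cases hne : ∃ x₁ ∈ G, x₁ ∈ DQ a x₀
    · obtain ⟨x₁, hx₁G, hx₁⟩ := hne
      rw [← Measure.restrict_apply' hQm]
      refine mark _ _ hfm _ (D * r ^ 2) (16 * D₀ / D) _ he hVf ?_
      have hT : ∀ j < N, MeasurableSet (S j ∩ Sq x₁ (4 * (2 : ℝ) ^ a)) := by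
        intro j hj
        obtain ⟨-, -, -, -, -, -, -, hsq⟩ := hPT
        exact (hS j hj).inter (hsq _ _ (by positivity)).1
      have h1 : ∫⁻ x' in DQ a x₀, ∑ j ∈ Finset.range N, volume (S j ∩ Sq x' (2 * r)) ≤
          ∫⁻ x' in DQ a x₀, ∑ j ∈ Finset.range N,
            volume ((S j ∩ Sq x₁ (4 * (2 : ℝ) ^ a)) ∩ Sq x' (2 * r)) := by
        refine setLIntegral_mono_ae' hQm (ae_of_all _ fun x' hx' => ?_)
        refine Finset.sum_le_sum fun j _ => measure_mono ?_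
        rintro y ⟨hyS, hy⟩
        refine ⟨⟨hyS, ?_⟩, hy⟩
        have h2 : x' ∈ DQ a x₁ := fun i => (hx' i).trans (hx₁ i).symm
        exact Sq_mono _ _ _ (by linarith) (tri x₁ x' y _ _ (DQ_dist a x₁ x' h2) hy)
      refine le_trans h1 (le_trans (setLIntegral_le_lintegral _ _) ?_)
      rw [lintegral_finsetSum' _ fun j hj =>
        (meas_f _ (hT j (Finset.mem_range.1 hj)) _).aemeasurable]
      have h3 : ∑ j ∈ Finset.range N, ∫⁻ x' : Pl,
            volume ((S j ∩ Sq x₁ (4 * (2 : ℝ) ^ a)) ∩ Sq x' (2 * r)) =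
          ENNReal.ofReal (4 * (2 * r) ^ 2) *
            ∑ j ∈ Finset.range N, volume (S j ∩ Sq x₁ (4 * (2 : ℝ) ^ a)) := by
        rw [Finset.mul_sum]
        exact Finset.sum_congr rfl fun j hj =>
          int_f hPT _ (hT j (Finset.mem_range.1 hj)) _ (by positivity)
      rw [h3]
      refine le_trans (mul_le_mul_right (hG x₁ hx₁G) _) ?_
      rw [hQv, ← ENNReal.ofReal_mul (by positivity), ← ENNReal.ofReal_mul (by positivity)]
      refine ENNReal.ofReal_le_ofReal (le_of_eq ?_)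
      field_simp
      ring
    · have he0 : (⋃ x ∈ {x | x ∈ G ∧ ¬ Dens S N x r D}, DQ b x) ∩ DQ a x₀ = ∅ := by
        refine eq_empty_of_forall_notMem ?_
        rintro x' ⟨hx', hxQ⟩
        obtain ⟨x, ⟨hxG, -⟩, hxx⟩ := mem_iUnion₂.1 hx'
        refine hne ⟨x, hxG, fun i => ?_⟩
        exact (DQ_nest a b hba x x' hxx i).symm.trans (hxQ i)
      rw [he0, measure_empty]
      exact zero_le

end Pool.Agent.Helper43.RG
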