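import Pool.Agent.Helper20.RG.St2

/-!
# Module WCL of project RG (MP_cb927e_an): a class through windows
-/

set_option autoImplicit false

open MeasureTheory Set Filter Topology
open scoped ENNReal RealInnerProductSpace

namespace Pool.Agent.Helper43.RG

open Pool.Agent.Helper20.RG
open Pool.Agent.Helper68.LM (Pl BB Bd Av HL ft fm DQ)

theorem isOpen_Ew (u : ℕ) (Cf : ℝ) (K : ℕ) (A σ : ℝ) (s : ℕ → ℝ) (g : Pl → ℝ)
    (Zf : ℕ → ℤ → ℕ → Pl → ℝ) (hF : Fam u Cf K A σ s g Zf) (η : ℝ) (b i : ℕ) (κ : ℝ) (k : ℤ)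
    (j : ℕ) (hj : j < 2 ^ u) : IsOpen (Ew Zf u η b i κ k j) := by
  have h1 : IsOpen {x : Pl | κ * η < |Zf (om u (b - 1) (16 * u - i)) k j x|} :=
    isOpen_lt continuous_const (hF.cont _ _ _ hj).abs
  have h2 : IsOpen {x : Pl | b ≤ 3 * u → ∃ l < 16 * u,
      κ * η / Ms u < |Zf (om u b l) k j x - Zf (om u b (l + 1)) k j x|} := by
    by_cases hb : b ≤ 3 * u
    · have e : {x : Pl | b ≤ 3 * u → ∃ l < 16 * u,
          κ * η / Ms u < |Zf (om u b l) k j x - Zf (om u b (l + 1)) k j x|} =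
          ⋃ l ∈ {l : ℕ | l < 16 * u},
            {x : Pl | κ * η / Ms u < |Zf (om u b l) k j x - Zf (om u b (l + 1)) k j x|} := by
        ext x
        simp [hb]
      rw [e]
      refine isOpen_biUnion fun l _ => ?_
      exact isOpen_lt continuous_const ((hF.cont _ _ _ hj).sub (hF.cont _ _ _ hj)).abs
    · have e : {x : Pl | b ≤ 3 * u → ∃ l < 16 * u,
          κ * η / Ms u < |Zf (om u b l) k j x - Zf (om u b (l + 1)) k j x|} = univ := by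
        ext x
        simp [hb]
      rw [e]
      exact isOpen_univ
  exact h1.inter h2

theorem hWCL (hWC : StWC) (hRDS : StRDS) (hINV : StINV) (hLBW : StLBW) : StWCL := by
  obtain ⟨C, hC, hR⟩ := hRDS
  refine ⟨C, hC, ?_⟩
  intro u Cf K A σ s g Zf η Λ m₁ b k G hF hCf hA hS hBB hg hG hu hη3 hη1 hΛ hb hns hm1 hmD
  have hη : 0 < η := lt_of_lt_of_le (by positivity) hη3
  have hu0 : (0 : ℝ) < u := by
    have : 0 < u := by omega
    exact_mod_cast this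
  set D₀ : ℝ := 16 * Cf * Λ / η ^ 2 with hD₀
  have hD₀0 : 0 < D₀ := by positivity
  have hMs : 0 < Ms u := by
    unfold Ms
    positivity
  -- the number e
  set e : ℕ := 2 ^ (b - 1) * (4 * u) with he
  have hpow1 : 1 ≤ 2 ^ (b - 1) := Nat.one_le_two_pow
  have he4 : 4 * u ≤ e := by
    calc 4 * u = 1 * (4 * u) := (one_mul _).symm
      _ ≤ 2 ^ (b - 1) * (4 * u) := Nat.mul_le_mul_right _ hpow1
  have heR : ((2 : ℝ) ^ (b + 1) * u) = (e : ℝ) := by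
    rw [he]
    push_cast
    have : b + 1 = (b - 1) + 2 := by omega
    rw [this, pow_add]
    ring
  have h16 : ((2 ^ (b - 1) * (16 * u) : ℕ) : ℤ) = 4 * (e : ℤ) := by
    rw [he]
    push_cast
    ring
  set a : ℤ := k + (om u (b - 1) (16 * u) : ℤ) with ha
  have haw : ∀ i : ℕ, i < 16 * u →
      k + (om u (b - 1) (16 * u - i) : ℤ) = a - (i : ℤ) * ((16 * e : ℕ) : ℤ) := by
    intro i hi
    obtain ⟨d, hd⟩ := Nat.exists_eq_add_of_lt hi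
    have h1 : 16 * u - i = d + 1 := by omega
    have h2 : (16 * u : ℕ) = i + (d + 1) := by omega
    rw [ha, h1]
    have h3 : om u (b - 1) (16 * u) = om u (b - 1) (d + 1) + i * (16 * e) := by
      rw [h2, he]
      unfold om
      ring
    rw [h3]
    push_cast
    ring
  have hL : ∀ i : ℕ, i < 16 * u → ∀ x ∈ G, ∑ j ∈ Finset.range (2 ^ u),
      volume (Ew Zf u η b i (1 / 4) k j ∩
        Sq x (4 * (2 : ℝ) ^ (a - (i : ℤ) * ((16 * e : ℕ) : ℤ)))) ≤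
        ENNReal.ofReal (D₀ * (4 : ℝ) ^ (a - (i : ℤ) * ((16 * e : ℕ) : ℤ))) := by
    intro i hi x hx
    rw [← haw i hi]
    exact hLBW u Cf K A σ s g Zf η Λ b i k x hF hCf hη hΛ.le hBB hg (hG x hx)
  have hmeas : ∀ i : ℕ, ∀ j < 2 ^ u, MeasurableSet (Ew Zf u η b i (1 / 4) k j) := fun i j hj =>
    (isOpen_Ew u Cf K A σ s g Zf hF η b i (1 / 4) k j hj).measurableSet
  have two_zpow_le : ∀ x y : ℤ, x ≤ y → (2 : ℝ) ^ x ≤ (2 : ℝ) ^ y := fun x y h =>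
    zpow_le_zpow_right₀ (by norm_num) h
  have hwc := hWC (16 * u) (2 ^ u) a (16 * e)
    (fun i => 2 * (2 : ℝ) ^ (a - (i : ℤ) * ((16 * e : ℕ) : ℤ) - 12 * (e : ℤ)))
    (fun i => 5 * (2 : ℝ) ^ (a - (i : ℤ) * ((16 * e : ℕ) : ℤ) - 8 * (e : ℤ)) / 2)
    (fun i j => Ew Zf u η b i (1 / 4) k j) G D₀ (by omega) hD₀0
    (fun i _ j hj => hmeas i j hj) (fun i hi => by
      set w : ℤ := a - (i : ℤ) * ((16 * e : ℕ) : ℤ) with hw
      have hw2 : a - ((i : ℤ) + 1) * ((16 * e : ℕ) : ℤ) = w - 16 * (e : ℤ) := by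
        rw [hw]
        push_cast
        ring
      rw [hw2]
      have p1 : (0 : ℝ) < (2 : ℝ) ^ (w - 12 * (e : ℤ)) := by positivity
      have p2 : (0 : ℝ) < (2 : ℝ) ^ (w - 8 * (e : ℤ)) := by positivity
      have q1 : (2 : ℝ) ^ (w - 16 * (e : ℤ)) ≤ (2 : ℝ) ^ (w - 12 * (e : ℤ)) :=
        two_zpow_le _ _ (by omega)
      have q2 : (2 : ℝ) ^ (w - 16 * (e : ℤ)) ≤ (2 : ℝ) ^ (w - 8 * (e : ℤ)) :=
        two_zpow_le _ _ (by omega)
      have q3 : 4 * (2 : ℝ) ^ (w - 12 * (e : ℤ)) ≤ (2 : ℝ) ^ w := by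
        have h4 : (4 : ℝ) * (2 : ℝ) ^ (w - 12 * (e : ℤ)) = (2 : ℝ) ^ (w - 12 * (e : ℤ) + 2) := by
          rw [zpow_add₀ (by norm_num)]
          norm_num
          ring
        rw [h4]
        exact two_zpow_le _ _ (by omega)
      have q4 : 4 * (2 : ℝ) ^ (w - 8 * (e : ℤ)) ≤ (2 : ℝ) ^ w := by
        have h4 : (4 : ℝ) * (2 : ℝ) ^ (w - 8 * (e : ℤ)) = (2 : ℝ) ^ (w - 8 * (e : ℤ) + 2) := by
          rw [zpow_add₀ (by norm_num)]
          norm_num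
          ring
        rw [h4]
        exact two_zpow_le _ _ (by omega)
      refine ⟨?_, ?_, ?_, ?_⟩ <;> linarith) hL
  -- the sets covered by the ridge theorem
  have hri : ∀ i ∈ Finset.range (16 * u),
      volume {x | m₁ ≤ ((Pe Zf u η b k x).ncard : ℝ) ∧
        (Dens (fun j => Ew Zf u η b i (1 / 4) k j) (2 ^ u) x
          (2 * (2 : ℝ) ^ (a - (i : ℤ) * ((16 * e : ℕ) : ℤ) - 12 * (e : ℤ))) (64 * D₀) ∧
        Dens (fun j => Ew Zf u η b i (1 / 4) k j) (2 ^ u) x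
          (5 * (2 : ℝ) ^ (a - (i : ℤ) * ((16 * e : ℕ) : ℤ) - 8 * (e : ℤ)) / 2) (64 * D₀))} ≤
      ENNReal.ofReal (C * ns u b A σ * (64 * D₀) / m₁ ^ 3) *
        ∑ j ∈ Finset.range (2 ^ u), volume (Ew Zf u η b i (1 / 4) k j) := by
    intro i hi'
    have hi : i < 16 * u := Finset.mem_range.1 hi'
    have haw' := haw i hi
    set w : ℤ := a - (i : ℤ) * ((16 * e : ℕ) : ℤ) with hw
    refine hR (2 ^ u) s (fun j => Ew Zf u η b i (3 / 8) k j) (fun j => Ew Zf u η b i (1 / 4) k j)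
      (w - 12 * (e : ℤ)) ((2 : ℝ) ^ (w - 8 * (e : ℤ))) ((2 : ℝ) ^ (w - 4 * (e : ℤ)))
      ((2 : ℝ) ^ (-(e : ℤ))) (64 * D₀) m₁ (ns u b A σ) _ hS.1
      (fun j hj => ⟨isOpen_Ew u Cf K A σ s g Zf hF η b i (3 / 8) k j hj, hmeas i j hj⟩)
      ?_ (by positivity) ?_ (by positivity) ?_ ?_ ?_ hns hm1 (by positivity) hmD ?_
    · intro j hj y hy lam hlam
      refine hINV u Cf K A σ s g Zf η b i k j hF hu hη3 hb hi hj y hy lam ?_
      rw [haw', h16]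
      exact hlam
    · have : (2 : ℝ) ^ (-(e : ℤ)) ≤ (2 : ℝ) ^ (0 : ℤ) := two_zpow_le _ _ (by omega)
      simpa using this
    · rw [← zpow_add₀ (by norm_num : (2 : ℝ) ≠ 0)]
      have h1 : (100 : ℝ) ≤ (2 : ℝ) ^ (7 : ℤ) := by norm_num
      calc 100 * (2 : ℝ) ^ (w - 12 * (e : ℤ)) ≤ (2 : ℝ) ^ (7 : ℤ) * (2 : ℝ) ^ (w - 12 * (e : ℤ)) := by
            gcongr
        _ = (2 : ℝ) ^ (7 + (w - 12 * (e : ℤ))) := by rw [zpow_add₀ (by norm_num)]
        _ ≤ (2 : ℝ) ^ (-(e : ℤ) + (w - 8 * (e : ℤ))) := two_zpow_le _ _ (by omega)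
    · rw [← zpow_natCast ((2 : ℝ) ^ (-(e : ℤ))), ← zpow_mul,
        ← zpow_add₀ (by norm_num : (2 : ℝ) ≠ 0)]
      push_cast
      rw [← zpow_natCast, ← zpow_add₀ (by norm_num : (2 : ℝ) ≠ 0)]
      exact two_zpow_le _ _ (by omega)
    · intro j hj
      have h1 := hS.2 (s j) e (by omega)
      have h2 : {j' : ℕ | j' < 2 ^ u ∧ |s j - s j'| ≤ (2 : ℝ) ^ (-(e : ℤ))} =
          {j' : ℕ | j' < 2 ^ u ∧ |s j' - s j| ≤ (2 : ℝ) ^ (-(e : ℤ))} := by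
        ext j'
        simp only [mem_ofPred_eq, abs_sub_comm]
      rw [h2]
      refine h1.trans (le_of_eq ?_)
      unfold ns
      rw [heR]
    · rintro x ⟨hx1, hx2, hx3⟩
      refine ⟨hx1.trans ?_, hx2, hx3⟩
      have hsub : Pe Zf u η b k x ⊆ {j : ℕ | j < 2 ^ u ∧ x ∈ Ew Zf u η b i (3 / 8) k j} := by
        rintro j ⟨hj, hj1, hj2⟩
        refine ⟨hj, ?_, fun hb3 => ?_⟩
        · have := hj1 (b - 1) (by omega) (16 * u - i) (by omega)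
          linarith
        · obtain ⟨l, hl, hl2⟩ := hj2 hb3
          refine ⟨l, hl, lt_of_lt_of_le ?_ hl2⟩
          rw [div_lt_div_iff₀ hMs (by positivity)]
          nlinarith [mul_pos hη hMs]
      have hfin : {j : ℕ | j < 2 ^ u ∧ x ∈ Ew Zf u η b i (3 / 8) k j}.Finite :=
        (finite_lt_nat (2 ^ u)).subset fun j hj => hj.1
      exact_mod_cast ncard_le_ncard hsub hfin
  have hcov : {x | x ∈ G ∧ m₁ ≤ ((Pe Zf u η b k x).ncard : ℝ)} ⊆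
      {x | x ∈ G ∧ ∀ i < 16 * u, ¬ (Dens (fun j => Ew Zf u η b i (1 / 4) k j) (2 ^ u) x
          (2 * (2 : ℝ) ^ (a - (i : ℤ) * ((16 * e : ℕ) : ℤ) - 12 * (e : ℤ))) (64 * D₀) ∧
        Dens (fun j => Ew Zf u η b i (1 / 4) k j) (2 ^ u) x
          (5 * (2 : ℝ) ^ (a - (i : ℤ) * ((16 * e : ℕ) : ℤ) - 8 * (e : ℤ)) / 2) (64 * D₀))} ∪
      ⋃ i ∈ Finset.range (16 * u), {x | m₁ ≤ ((Pe Zf u η b k x).ncard : ℝ) ∧
        (Dens (fun j => Ew Zf u η b i (1 / 4) k j) (2 ^ u) x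
          (2 * (2 : ℝ) ^ (a - (i : ℤ) * ((16 * e : ℕ) : ℤ) - 12 * (e : ℤ))) (64 * D₀) ∧
        Dens (fun j => Ew Zf u η b i (1 / 4) k j) (2 ^ u) x
          (5 * (2 : ℝ) ^ (a - (i : ℤ) * ((16 * e : ℕ) : ℤ) - 8 * (e : ℤ)) / 2) (64 * D₀))} := by
    rintro x ⟨hx1, hx2⟩
    by_cases h : ∀ i < 16 * u, ¬ (Dens (fun j => Ew Zf u η b i (1 / 4) k j) (2 ^ u) x
          (2 * (2 : ℝ) ^ (a - (i : ℤ) * ((16 * e : ℕ) : ℤ) - 12 * (e : ℤ))) (64 * D₀) ∧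
        Dens (fun j => Ew Zf u η b i (1 / 4) k j) (2 ^ u) x
          (5 * (2 : ℝ) ^ (a - (i : ℤ) * ((16 * e : ℕ) : ℤ) - 8 * (e : ℤ)) / 2) (64 * D₀))
    · exact Or.inl ⟨hx1, h⟩
    · push Not at h
      obtain ⟨i, hi, h⟩ := h
      refine Or.inr ?_
      simp only [mem_iUnion, Finset.mem_range]
      exact ⟨i, hi, hx2, h⟩
  refine (measure_mono hcov).trans ((measure_union_le _ _).trans (add_le_add hwc ?_))
  exact (measure_biUnion_finset_le _ _).trans (Finset.sum_le_sum hri)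

end Pool.Agent.Helper43.RG
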