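import Pool.Agent.Helper20.RG.St2

/-!
# Common lemmas for the numerical modules NBA, NBB, NBC, NBD of project RG (MP_cb927e_an)
-/

set_option autoImplicit false

open Set Filter Topology

namespace Pool.Agent.Helper43.RG

open Pool.Agent.Helper20.RG

theorem N_pos (u : ℕ) : (0 : ℝ) < (2 : ℝ) ^ u := by positivity

theorem N_one (u : ℕ) : (1 : ℝ) ≤ (2 : ℝ) ^ u := one_le_pow₀ (by norm_num)

/-- real exponents of two as powers of `N = 2^u` -/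
theorem two_rpow (a : ℝ) (u : ℕ) : (2 : ℝ) ^ (a * (u : ℝ)) = ((2 : ℝ) ^ u) ^ a := by
  rw [← Real.rpow_natCast, ← Real.rpow_mul (by norm_num), mul_comm]

/-- a polynomial is bounded by a small power of `N` -/
theorem poly (k : ℕ) (δ : ℝ) (hδ : 0 < δ) :
    ∃ C : ℝ, 0 < C ∧ ∀ u : ℕ, (u : ℝ) ^ k ≤ C * ((2 : ℝ) ^ u) ^ δ := by
  have hr : 1 < (2 : ℝ) ^ δ := Real.one_lt_rpow (by norm_num) hδ
  obtain ⟨M, hM⟩ := (tendsto_pow_const_div_const_pow_of_one_lt k hr).bddAbove_range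
  refine ⟨max M 1, lt_of_lt_of_le one_pos (le_max_right _ _), fun u => ?_⟩
  have h1 : (u : ℝ) ^ k / ((2 : ℝ) ^ δ) ^ u ≤ M := hM ⟨u, rfl⟩
  have h2 : ((2 : ℝ) ^ δ) ^ u = ((2 : ℝ) ^ u) ^ δ := by
    rw [← Real.rpow_natCast, ← Real.rpow_mul (by norm_num), ← Real.rpow_natCast,
      ← Real.rpow_mul (by norm_num), mul_comm]
  rw [h2, div_le_iff₀ (by positivity)] at h1
  exact h1.trans (mul_le_mul_of_nonneg_right (le_max_left _ _) (by positivity))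

/-- a polynomial is eventually smaller than a small power of `N` -/
theorem big (c : ℝ) (k : ℕ) (δ : ℝ) (hδ : 0 < δ) :
    ∃ u₀ : ℕ, ∀ u : ℕ, u₀ ≤ u → c * (u : ℝ) ^ k ≤ ((2 : ℝ) ^ u) ^ δ := by
  have hr : 1 < (2 : ℝ) ^ δ := Real.one_lt_rpow (by norm_num) hδ
  have h0 := (tendsto_pow_const_div_const_pow_of_one_lt k hr).const_mul c
  rw [mul_zero] at h0
  obtain ⟨u₀, hu⟩ := eventually_atTop.1 (h0.eventually (gt_mem_nhds one_pos))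
  refine ⟨u₀, fun u h => ?_⟩
  have h1 : c * ((u : ℝ) ^ k / ((2 : ℝ) ^ δ) ^ u) < 1 := hu u h
  have h2 : ((2 : ℝ) ^ δ) ^ u = ((2 : ℝ) ^ u) ^ δ := by
    rw [← Real.rpow_natCast, ← Real.rpow_mul (by norm_num), ← Real.rpow_natCast,
      ← Real.rpow_mul (by norm_num), mul_comm]
  rw [h2, ← mul_div_assoc, div_lt_one (by positivity)] at h1
  exact h1.le

theorem Ms_le (u : ℕ) (hu : 1 ≤ u) : 0 ≤ Ms u ∧ Ms u ≤ 64 * (u : ℝ) ^ 2 := by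
  have h : (1 : ℝ) ≤ u := by exact_mod_cast hu
  unfold Ms
  constructor
  · positivity
  · nlinarith

/-- the choice of `T` -/
theorem muT (u : ℕ) (A σ W : ℝ) (hW : 1 ≤ W) (hA : 0 ≤ A) (hσ : 0 < σ) :
    ∃ T : ℕ, 1 ≤ T ∧ 0 ≤ mu u A σ W T ∧
      mu u A σ W T ≤ (2 + A) * (W * (2 : ℝ) ^ u) ^ (σ / (σ + 1)) + W := by
  have hN := N_one u
  have hV : 1 ≤ W * (2 : ℝ) ^ u := one_le_mul_of_one_le_of_one_le hW hN
  set V : ℝ := W * (2 : ℝ) ^ u with hVd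
  have hV0 : 0 < V := lt_of_lt_of_le one_pos hV
  have hs : 0 < σ / (σ + 1) := by positivity
  have hVs : 1 ≤ V ^ (σ / (σ + 1)) := Real.one_le_rpow hV hs.le
  refine ⟨⌈V ^ (σ / (σ + 1))⌉₊, Nat.one_le_ceil_iff.2 (by linarith), ?_, ?_⟩
  · unfold mu
    positivity
  · have h1 : V ^ (σ / (σ + 1)) ≤ (⌈V ^ (σ / (σ + 1))⌉₊ : ℝ) := Nat.le_ceil _
    have h2 : (⌈V ^ (σ / (σ + 1))⌉₊ : ℝ) < V ^ (σ / (σ + 1)) + 1 :=
      Nat.ceil_lt_add_one (by linarith)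
    have h3 : ((⌈V ^ (σ / (σ + 1))⌉₊ : ℝ)) ^ (-(1 / σ)) ≤ (V ^ (σ / (σ + 1))) ^ (-(1 / σ)) :=
      Real.rpow_le_rpow_of_nonpos (by linarith) h1 (by simp [hσ.le])
    have h4 : V * (V ^ (σ / (σ + 1))) ^ (-(1 / σ)) = V ^ (σ / (σ + 1)) := by
      rw [← Real.rpow_mul hV0.le]
      nth_rw 1 [← Real.rpow_one V]
      rw [← Real.rpow_add hV0]
      congr 1
      field_simp
      ring
    have h5 : W * ((2 : ℝ) ^ u * (A * (⌈V ^ (σ / (σ + 1))⌉₊ : ℝ) ^ (-(1 / σ)))) ≤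
        A * V ^ (σ / (σ + 1)) := by
      calc W * ((2 : ℝ) ^ u * (A * (⌈V ^ (σ / (σ + 1))⌉₊ : ℝ) ^ (-(1 / σ))))
          = A * (V * (⌈V ^ (σ / (σ + 1))⌉₊ : ℝ) ^ (-(1 / σ))) := by rw [hVd]; ring
        _ ≤ A * (V * (V ^ (σ / (σ + 1))) ^ (-(1 / σ))) := by gcongr
        _ = A * V ^ (σ / (σ + 1)) := by rw [h4]
    unfold mu
    rw [mul_add, mul_one]
    linarith

/-- consequences of the numerical situation.  `D = u^6 (3u+2)`. -/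
theorem num_basic (u : ℕ) (σ q Λ η m₁ : ℝ) (hu : 1 ≤ u) (hσq : σ < q) (h : Num u σ q Λ η m₁) :
    0 < Λ ∧ Λ ≤ 2 ∧ 0 < η ∧ η ≤ 1 ∧ 0 < m₁ ∧
      m₁ * (((u : ℝ) ^ 6 * (3 * u + 2)) * η) = (2 : ℝ) ^ u * Λ ∧
      (u : ℝ) ^ 6 * (3 * u + 2) ≤ 5 * (u : ℝ) ^ 7 ∧ 1 / η ≤ (u : ℝ) ^ 6 / Λ ∧
      ((2 : ℝ) ^ u) ^ ((q - σ) / 2) ≤ (2 : ℝ) ^ u * Λ ∧ 1 ≤ (2 : ℝ) ^ u * Λ ∧
      ((2 : ℝ) ^ u) ^ ((q - σ) / 2) / ((u : ℝ) ^ 6 * (3 * u + 2)) ≤ m₁ ∧ m₁ ≤ (2 : ℝ) ^ u := by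
  obtain ⟨h1, h2, h3, h4, h5, h6⟩ := h
  have hu1 : (1 : ℝ) ≤ u := by exact_mod_cast hu
  have hu0 : (0 : ℝ) < u := by linarith
  have hN := N_one u
  have hN0 := N_pos u
  rw [two_rpow] at h3
  have hη : 0 < η := lt_of_lt_of_le (by positivity) h4
  have hD : 0 < (u : ℝ) ^ 6 * (3 * u + 2) := by positivity
  have hm : m₁ * (((u : ℝ) ^ 6 * (3 * u + 2)) * η) = (2 : ℝ) ^ u * Λ := by
    rw [h6]
    field_simp
  have hm0 : 0 < m₁ := by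
    rw [h6]
    positivity
  have hpow : 1 ≤ ((2 : ℝ) ^ u) ^ ((q - σ) / 2) := Real.one_le_rpow hN (by linarith)
  refine ⟨h1, h2, hη, h5, hm0, hm, ?_, ?_, h3, hpow.trans h3, ?_, ?_⟩
  · have : (3 : ℝ) * u + 2 ≤ 5 * u := by linarith
    calc (u : ℝ) ^ 6 * (3 * u + 2) ≤ (u : ℝ) ^ 6 * (5 * u) := by gcongr
      _ = 5 * (u : ℝ) ^ 7 := by ring
  · rw [div_le_div_iff₀ hη h1]
    rw [div_le_iff₀ (by positivity)] at h4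
    linarith
  · rw [div_le_iff₀ hD]
    have : m₁ * (((u : ℝ) ^ 6 * (3 * u + 2)) * η) ≤ m₁ * ((u : ℝ) ^ 6 * (3 * u + 2)) := by
      have : ((u : ℝ) ^ 6 * (3 * u + 2)) * η ≤ (u : ℝ) ^ 6 * (3 * u + 2) :=
        mul_le_of_le_one_right hD.le h5
      gcongr
    linarith
  · rw [div_le_iff₀ (by positivity)] at h4
    have h7 : Λ ≤ ((u : ℝ) ^ 6 * (3 * u + 2)) * η := by
      have : η * (u : ℝ) ^ 6 * 1 ≤ η * (u : ℝ) ^ 6 * (3 * u + 2) := by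
        have : (1 : ℝ) ≤ 3 * u + 2 := by linarith
        gcongr
      linarith
    have h8 : m₁ * Λ ≤ (2 : ℝ) ^ u * Λ := by
      rw [← hm]
      gcongr
    exact le_of_mul_le_mul_right h8 h1

/-- `Λ^(-2) ≤ 2 Λ^(-q)` -/
theorem lam_two (Λ q : ℝ) (h0 : 0 < Λ) (h2 : Λ ≤ 2) (hq : 2 < q) (hq3 : q < 3) :
    1 / Λ ^ 2 ≤ 2 * Λ ^ (-q) := by
  have h1 : Λ ^ (q - 2) ≤ 2 := by
    calc Λ ^ (q - 2) ≤ (2 : ℝ) ^ (q - 2) := Real.rpow_le_rpow h0.le h2 (by linarith)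
      _ ≤ (2 : ℝ) ^ (1 : ℝ) := Real.rpow_le_rpow_of_exponent_le (by norm_num) (by linarith)
      _ = 2 := Real.rpow_one 2
  have h3 : 1 / Λ ^ 2 = Λ ^ (q - 2) * Λ ^ (-q) := by
    rw [← Real.rpow_add h0, one_div, ← Real.rpow_natCast, ← Real.rpow_neg h0.le]
    congr 1
    push_cast
    ring
  rw [h3]
  gcongr

/-- absorbing a polynomial -/
theorem absorb (k : ℕ) (c ε : ℝ) (hc : 0 < c) (hε : 0 < ε) :
    ∃ C : ℝ, 0 < C ∧ ∀ (u : ℕ) (Λ q : ℝ), 0 < Λ →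
      c * (u : ℝ) ^ k * ((2 : ℝ) ^ u) ^ (-(2 * ε)) * Λ ^ (-q) ≤ C * (2 : ℝ) ^ (-(ε * u)) * Λ ^ (-q) := by
  obtain ⟨C₁, hC₁, h⟩ := poly k ε hε
  refine ⟨c * C₁, by positivity, fun u Λ q hΛ => ?_⟩
  have hN0 := N_pos u
  have e : (2 : ℝ) ^ (-(ε * (u : ℝ))) = ((2 : ℝ) ^ u) ^ ε * ((2 : ℝ) ^ u) ^ (-(2 * ε)) := by
    rw [← neg_mul, two_rpow, ← Real.rpow_add hN0]
    congr 1
    ring
  rw [e]
  have h1 := h u
  calc c * (u : ℝ) ^ k * ((2 : ℝ) ^ u) ^ (-(2 * ε)) * Λ ^ (-q)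
      ≤ c * (C₁ * ((2 : ℝ) ^ u) ^ ε) * ((2 : ℝ) ^ u) ^ (-(2 * ε)) * Λ ^ (-q) := by gcongr
    _ = c * C₁ * (((2 : ℝ) ^ u) ^ ε * ((2 : ℝ) ^ u) ^ (-(2 * ε))) * Λ ^ (-q) := by ring

end Pool.Agent.Helper43.RG
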